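import Mathlib

/-!
Definitions used in the statement: the factors, the points and the hitting set.
-/

namespace Pool.Agent.Helper7.Depth4

open MvPolynomial

/-- `g = h + ∑ b, p_b`, where `h` has at most `s` monomials and, on any `K` variables, at most `P`
different exponent patterns, every `p_b` depends on at most `c` variables, every variable occurs in
at most `κ` of the `p_b`, and `h` and the `p_b` have degree at most `d` in every variable. -/
def Base (n K s P c κ d : ℕ) (g : MvPolynomial (Fin n) ℚ) : Prop :=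
  ∃ (h : MvPolynomial (Fin n) ℚ) (N : ℕ) (p : Fin N → MvPolynomial (Fin n) ℚ),
    h.support.card ≤ s ∧
    (∀ J : Fin K → Fin n, (h.support.image fun m j => m (J j)).card ≤ P) ∧
    (∀ b, (p b).vars.card ≤ c) ∧
    (∀ i, (Finset.univ.filter fun b => i ∈ (p b).vars).card ≤ κ) ∧
    (∀ i, h.degreeOf i ≤ d ∧ ∀ b, (p b).degreeOf i ≤ d) ∧
    g = h + ∑ b, p b

/-- `g` is a polynomial, of any degree, in `a` polynomials of the class `Base`. -/
def Factor (n K a s P c κ d : ℕ) (g : MvPolynomial (Fin n) ℚ) : Prop :=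
  ∃ q : Fin a → MvPolynomial (Fin n) ℚ,
    (∀ l, Base n K s P c κ d (q l)) ∧ g ∈ Algebra.adjoin ℚ (Set.range q)

/-- The number of seeds. -/
def seeds (K a P c κ : ℕ) : ℕ := K + (K + 1) * a * (P + 1 + K * κ * (c - 1))

/-- The point with `i`-th coordinate
`∑_{t<q} y^(t^i mod q) ∏_{t'<q, t'≠t} (v - t') + ∑_{l<c} z_l ∏_{j≠i} (u_l - j)`. -/
def point (n q c : ℕ) (y v : ℕ) (z u : Fin c → ℕ) (i : Fin n) : ℚ :=
  ∑ t ∈ Finset.range q, (y : ℚ) ^ (t ^ (i : ℕ) % q) *
      ∏ t' ∈ (Finset.range q).erase t, ((v : ℚ) - (t' : ℚ)) +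
    ∑ l, (z l : ℚ) * ∏ j ∈ Finset.univ.erase i, ((u l : ℚ) - (j.val : ℚ))

/-- All points with parameters in `{0, …, R}`. -/
def hittingSet (n q c R : ℕ) : Finset (Fin n → ℚ) :=
  ((Finset.range (R + 1) ×ˢ Finset.range (R + 1)) ×ˢ
    ((Fintype.piFinset fun _ : Fin c => Finset.range (R + 1)) ×ˢ
      (Fintype.piFinset fun _ : Fin c => Finset.range (R + 1)))).image
    fun a => point n q c a.1.1 a.1.2 a.2.1 a.2.2

end Pool.Agent.Helper7.Depth4
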