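import Pool.Agent.Helper7.KS2

/-!
A polynomial generator for sparse polynomials, interpolating the Klivans–Spielman curves.
-/

open MvPolynomial

namespace Pool.Agent.Helper7.T1

open KS

variable {n : ℕ}

/-- a good exponent isolates a monomial -/
lemma exists_sep {q σ : ℕ} (hq : q.Prime) (P : MvPolynomial (Fin n) ℚ) (hP : P ≠ 0)
    (hσ : P.support.card ≤ σ) (hd : ∀ i, degreeOf i P < q) (hbig : (σ - 1) * (n - 1) < q) :
    ∃ t < q, ∃ m0 ∈ P.support, ∀ m ∈ P.support, m ≠ m0 →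
      ∑ k : Fin n, m k * (t ^ (k : ℕ) % q) ≠ ∑ k : Fin n, m0 k * (t ^ (k : ℕ) % q) := by
  classical
  have : Fact q.Prime := ⟨hq⟩
  obtain ⟨m0, hm0⟩ : ∃ m0, m0 ∈ P.support :=
    Finset.nonempty_iff_ne_empty.2 fun h => hP (support_eq_empty.1 h)
  by_contra hcon
  push Not at hcon
  have hsub : Finset.range q ⊆ (P.support.erase m0).biUnion fun m =>
        (Finset.range q).filter fun κ => ∑ k : Fin n, m k * (κ ^ (k : ℕ) % q)
          = ∑ k : Fin n, m0 k * (κ ^ (k : ℕ) % q) := by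
    intro t ht
    obtain ⟨m, hm, hne, heq⟩ := hcon t (Finset.mem_range.1 ht) m0 hm0
    exact Finset.mem_biUnion.2 ⟨m, Finset.mem_erase.2 ⟨hne, hm⟩,
      Finset.mem_filter.2 ⟨ht, heq⟩⟩
  have h1 := (Finset.card_le_card hsub).trans Finset.card_biUnion_le
  have h2 : ∑ m ∈ P.support.erase m0, ((Finset.range q).filter fun κ =>
          ∑ k : Fin n, m k * (κ ^ (k : ℕ) % q) = ∑ k : Fin n, m0 k * (κ ^ (k : ℕ) % q)).card
      ≤ ∑ m ∈ P.support.erase m0, (n - 1) := by
    refine Finset.sum_le_sum fun m hm => ?_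
    rw [Finset.mem_erase] at hm
    exact card_bad_pair m m0 hm.1 (lt_of_degreeOf hd hm.2) (lt_of_degreeOf hd hm0)
  rw [Finset.sum_const, smul_eq_mul, Finset.card_erase_of_mem hm0] at h2
  have h3 : (P.support.card - 1) * (n - 1) ≤ (σ - 1) * (n - 1) :=
    Nat.mul_le_mul_right _ (by omega)
  rw [Finset.card_range] at h1
  omega

/-- the generator; `X 0` is the curve parameter, `X 1` selects the curve -/
noncomputable def ksPoly (n q : ℕ) (i : Fin n) : MvPolynomial (Fin 2) ℚ :=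
  ∑ t ∈ Finset.range q, X 0 ^ (t ^ (i : ℕ) % q) *
    ∏ t' ∈ (Finset.range q).erase t, (X 1 - C (t' : ℚ))

lemma aeval_curve (c : ℚ) (w : Fin n → ℕ) (m : Fin n →₀ ℕ) (a : ℚ) :
    aeval (fun i => Polynomial.C c * Polynomial.X ^ w i : Fin n → Polynomial ℚ) (monomial m a) =
      Polynomial.C (a * c ^ (∑ k, m k)) * Polynomial.X ^ (∑ k, m k * w k) := by
  rw [aeval_monomial, Finsupp.prod_fintype _ _ (by simp), Polynomial.algebraMap_eq]
  simp only [mul_pow, Finset.prod_mul_distrib, ← Polynomial.C_pow, ← map_prod,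
    Finset.prod_pow_eq_pow_sum, ← pow_mul]
  rw [map_mul, mul_assoc]
  congr 3
  exact Finset.sum_congr rfl fun k _ => mul_comm _ _

lemma curve_ne_zero {P : MvPolynomial (Fin n) ℚ} (c : ℚ) (hc : c ≠ 0) (w : Fin n → ℕ)
    {m0 : Fin n →₀ ℕ} (hm0 : m0 ∈ P.support)
    (h : ∀ m ∈ P.support, m ≠ m0 → ∑ k, m k * w k ≠ ∑ k, m0 k * w k) :
    aeval (fun i => Polynomial.C c * Polynomial.X ^ w i : Fin n → Polynomial ℚ) P ≠ 0 := by
  classical
  intro h0
  have hcoeff : (aeval (fun i => Polynomial.C c * Polynomial.X ^ w i : Fin n → Polynomial ℚ) P).coeff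
      (∑ k, m0 k * w k) = coeff m0 P * c ^ (∑ k, m0 k) := by
    conv_lhs => rw [P.as_sum]
    rw [map_sum, Polynomial.finsetSum_coeff, Finset.sum_eq_single m0]
    · rw [aeval_curve, Polynomial.coeff_C_mul, Polynomial.coeff_X_pow_self, mul_one]
    · intro m hm hmm0
      rw [aeval_curve, Polynomial.coeff_C_mul, Polynomial.coeff_X_pow,
        if_neg (fun h' => h m hm hmm0 h'.symm), mul_zero]
    · intro h
      exact absurd hm0 h
  rw [h0, Polynomial.coeff_zero] at hcoeff
  exact mul_ne_zero (mem_support_iff.1 hm0) (pow_ne_zero _ hc) hcoeff.symm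

/-- **(H1)** for sparse polynomials -/
theorem ksPoly_ne_zero {q σ : ℕ} (hq : q.Prime) (P : MvPolynomial (Fin n) ℚ) (hP : P ≠ 0)
    (hσ : P.support.card ≤ σ) (hd : ∀ i, degreeOf i P < q) (hbig : (σ - 1) * (n - 1) < q) :
    aeval (ksPoly n q) P ≠ 0 := by
  classical
  obtain ⟨t, ht, m0, hm0, hsep⟩ := exists_sep hq P hP hσ hd hbig
  set c : ℚ := ∏ t' ∈ (Finset.range q).erase t, ((t : ℚ) - (t' : ℚ)) with hc
  have hc0 : c ≠ 0 := by
    rw [hc, Finset.prod_ne_zero_iff]
    intro t' ht' h0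
    rw [sub_eq_zero] at h0
    have : t = t' := by exact_mod_cast h0
    exact (Finset.ne_of_mem_erase ht') this.symm
  have h1 := curve_ne_zero (P := P) c hc0 (fun k => t ^ (k : ℕ) % q) hm0 hsep
  intro h0
  apply h1
  let ψ : MvPolynomial (Fin 2) ℚ →ₐ[ℚ] Polynomial ℚ :=
    aeval (fun b : Fin 2 => if b = 0 then Polynomial.X else Polynomial.C (t : ℚ))
  have h2 : ψ.comp (aeval (ksPoly n q)) =
      aeval (fun i : Fin n => Polynomial.C c * Polynomial.X ^ (t ^ (i : ℕ) % q)) := by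
    apply MvPolynomial.algHom_ext
    intro i
    rw [AlgHom.comp_apply, aeval_X, aeval_X, ksPoly, map_sum, Finset.sum_eq_single t]
    · simp only [map_mul, map_pow, map_prod, map_sub]
      have e0 : ψ (X 0) = Polynomial.X := by simp [ψ]
      have e1 : ψ (X 1) = Polynomial.C (t : ℚ) := by simp [ψ]
      have e2 : ∀ x : ℚ, ψ (C x) = Polynomial.C x := fun x => ψ.commutes x
      rw [e0, mul_comm]
      congr 1
      rw [hc, map_prod]
      refine Finset.prod_congr rfl fun t' _ => ?_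
      rw [e1, e2, ← map_sub]
    · intro t1 ht1 hne
      rw [map_mul, map_prod]
      have : ∏ t' ∈ (Finset.range q).erase t1, ψ (X 1 - C (t' : ℚ)) = 0 := by
        apply Finset.prod_eq_zero (i := t)
        · exact Finset.mem_erase.2 ⟨hne.symm, Finset.mem_range.2 ht⟩
        · have e1 : ψ (X 1) = Polynomial.C (t : ℚ) := by simp [ψ]
          have e2 : ∀ x : ℚ, ψ (C x) = Polynomial.C x := fun x => ψ.commutes x
          rw [map_sub, e1, e2, sub_self]
      rw [this, mul_zero]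
    · intro h
      exact absurd (Finset.mem_range.2 ht) h
  rw [← h2, AlgHom.comp_apply, h0, map_zero]

/-- **(H1)** -/
theorem h1_sparse {s d q : ℕ} (hq : q.Prime) (M0 M : ℕ) (hM : M ≤ M0)
    (hq1 : M0 * d < q) (hq2 : M0.factorial * s ^ M0 * n ≤ q) (hs : 0 < s)
    (a : Fin M → MvPolynomial (Fin n) ℚ) (ha : ∀ i j, Sp s d (pderiv j (a i)))
    (J : Fin M → Fin n)
    (hdet : (Matrix.of fun i j => MvPolynomial.pderiv (J j) (a i)).det ≠ 0) :
    aeval (ksPoly n q) (Matrix.of fun i j => MvPolynomial.pderiv (J j) (a i)).det ≠ 0 := by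
  have h1 : Sp (M.factorial * s ^ M) (M * d)
      (Matrix.of fun i j => MvPolynomial.pderiv (J j) (a i)).det :=
    Sp.det _ fun i j => ha i (J j)
  have h2 : M.factorial * s ^ M ≤ M0.factorial * s ^ M0 :=
    Nat.mul_le_mul (Nat.factorial_le hM) (Nat.pow_le_pow_right hs hM)
  refine ksPoly_ne_zero hq _ hdet (h1.1.trans h2)
    (fun i => lt_of_le_of_lt ((h1.2 i).trans (Nat.mul_le_mul_right _ hM)) hq1) ?_
  have h3 : 0 < M0.factorial * s ^ M0 := Nat.mul_pos (Nat.factorial_pos _) (pow_pos hs _)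
  rcases Nat.eq_zero_or_pos n with h4 | h4
  · subst h4
    simpa using hq.pos
  · refine lt_of_lt_of_le ?_ hq2
    calc (M0.factorial * s ^ M0 - 1) * (n - 1) ≤ (M0.factorial * s ^ M0) * (n - 1) :=
          Nat.mul_le_mul_right _ (Nat.sub_le _ _)
      _ < M0.factorial * s ^ M0 * n := Nat.mul_lt_mul_of_pos_left (by omega) h3

/-- degrees of the generator -/
lemma totalDegree_ksPoly (q : ℕ) (i : Fin n) : (ksPoly n q i).totalDegree ≤ 2 * q := by
  classical
  unfold ksPoly
  refine totalDegree_finsetSum_le fun t ht => ?_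
  have hq : 0 < q := lt_of_le_of_lt (Nat.zero_le _) (Finset.mem_range.1 ht)
  refine (totalDegree_mul _ _).trans ?_
  have h1 : ((X 0 : MvPolynomial (Fin 2) ℚ) ^ (t ^ (i : ℕ) % q)).totalDegree ≤ q := by
    refine (totalDegree_pow _ _).trans ?_
    rw [totalDegree_X, mul_one]
    exact (Nat.mod_lt _ hq).le
  have h2 : (∏ t' ∈ (Finset.range q).erase t, (X 1 - C (t' : ℚ) : MvPolynomial (Fin 2) ℚ)).totalDegree
      ≤ q := by
    refine (totalDegree_finsetProd _ _).trans ?_
    calc ∑ t' ∈ (Finset.range q).erase t, (X 1 - C (t' : ℚ) : MvPolynomial (Fin 2) ℚ).totalDegree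
        ≤ ∑ t' ∈ (Finset.range q).erase t, 1 := Finset.sum_le_sum fun t' _ => by
          refine (totalDegree_sub _ _).trans ?_
          rw [totalDegree_X, totalDegree_C]
          simp
      _ ≤ q := by
          rw [Finset.sum_const, smul_eq_mul, mul_one, Finset.card_erase_of_mem ht,
            Finset.card_range]
          exact Nat.sub_le _ _
  omega

end Pool.Agent.Helper7.T1
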