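import Pool.Agent.Helper7.T1.Local
import Pool.Agent.Helper7.T1.Gen
import Pool.Agent.Helper7.T1.Defs
import Pool.Agent.Helper7.T3.H1
import Pool.Agent.Helper5.V.Interface
import Pool.Agent.Helper6.T1.Post
import Pool.Agent.Helper6.T1.Comp

/-!
The hitting theorem for products of sparse polynomials with few exponents (depth-4 circuits with
bounded top fan-in).
-/

set_option linter.unusedSectionVars false
set_option linter.unusedSimpArgs false

open MvPolynomial

namespace Pool.Agent.Helper7.T1

open KS Depth4 VF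
open Pool.Agent.Helper5 hiding hittingSet card_hittingSet

variable {n : ℕ}



/-- the substitution does not kill `f` -/
theorem phi_ne_zero {K a s P c κ d q : ℕ} (hq : q.Prime) (hq1 : seeds K a P c κ * d < q)
    (hq2 : (seeds K a P c κ).factorial * (s + κ * (d + 1) ^ c + 1) ^ seeds K a P c κ * n ≤ q)
    {m : ℕ} (T : Fin m → MvPolynomial (Fin n) ℚ)
    (hT : ∀ i, T i ∈ Submonoid.closure {g | Factor n K a s P c κ d g})
    (htr : ∀ b : Finset (Fin m), AlgebraicIndepOn ℚ T (b : Set (Fin m)) → b.card ≤ K)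
    (f : MvPolynomial (Fin n) ℚ) (hf : f ∈ Algebra.adjoin ℚ (Set.range T)) (hf0 : f ≠ 0) :
    Phi (ksPoly n q) (seeds K a P c κ + K) f ≠ 0 := by
  classical
  refine interface K (seeds K a P c κ) (ksPoly n q) {g | Factor n K a s P c κ d g}
    {a | Par (s + κ * (d + 1) ^ c + 1) d a} ?_ ?_ T hT htr f hf hf0
  · intro g hg r hr J
    choose Q hQ hgQ using hg
    choose h N p h1 h2 h3 h4 h5 h6 using hQ
    obtain ⟨b, hb1, hb2⟩ := h2_sparse (ι := Fin (K + 1) × Fin a) (s := s) (d := d) (P := P)
      (c := c) (κ := κ) (fun l => h l.1 l.2) (fun l => N l.1 l.2) (fun l => p l.1 l.2)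
      (fun l => ⟨h1 l.1 l.2, fun i => (h5 l.1 l.2 i).1⟩) (fun l => h2 l.1 l.2)
      (fun l b => ⟨h3 l.1 l.2 b, fun i => (h5 l.1 l.2 i).2 b⟩) (fun l => h4 l.1 l.2) hr J
    have hcard : K + Fintype.card (Fin (K + 1) × Fin a) * (P + 1 + K * κ * (c - 1)) =
        seeds K a P c κ := by
      rw [Fintype.card_prod, Fintype.card_fin, Fintype.card_fin]; rfl
    refine ⟨fun i => b (Fin.cast hcard.symm i), fun i => hb1 _, fun l m => ?_⟩
    have hr : Set.range (fun i => b (Fin.cast hcard.symm i)) = Set.range b := by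
      ext x
      constructor
      · rintro ⟨i, rfl⟩; exact ⟨_, rfl⟩
      · rintro ⟨i, rfl⟩; exact ⟨Fin.cast hcard i, rfl⟩
    rw [hr]
    refine Helper6.coeff_shR_mem _ J (Q l) _ (fun l' m' => ?_) (hgQ l) m
    have := hb2 (l, l') m'
    simp only at this
    rw [h6 l l']
    exact this
  · intro M hM b hb J hdet
    exact h1_sparse hq (seeds K a P c κ) M hM hq1 hq2 (Nat.succ_pos _) b hb J hdet

/-- the coordinate polynomials of the full generator -/
noncomputable def full (n q c : ℕ) (v : Fin n) : MvPolynomial (Fin 2 ⊕ (Fin c ⊕ Fin c)) ℚ :=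
  rename Sum.inl (ksPoly n q v) + rename Sum.inr (genPoly n c v)

lemma eval_full (n q c : ℕ) (s : Fin 2 ⊕ (Fin c ⊕ Fin c) → ℕ) (i : Fin n) :
    eval (fun j => (s j : ℚ)) (full n q c i) =
      point n q c (s (Sum.inl 0)) (s (Sum.inl 1)) (fun l => s (Sum.inr (Sum.inl l)))
        (fun l => s (Sum.inr (Sum.inr l))) i := by
  unfold full point
  rw [map_add, eval_rename, eval_rename, eval_genPoly, ksPoly, gen]
  simp [Function.comp_def]

lemma totalDegree_full {n q c : ℕ} (hn : n ≤ q) (i : Fin n) :
    (full n q c i).totalDegree ≤ 2 * q := by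
  unfold full
  refine (totalDegree_add _ _).trans (max_le ?_ ?_)
  · exact (totalDegree_rename_le _ _).trans (totalDegree_ksPoly q i)
  · refine (totalDegree_rename_le _ _).trans ((Helper6.totalDegree_genPoly n c i).trans ?_)
    omega

lemma mem_hittingSet {n q c R : ℕ} (s : Fin 2 ⊕ (Fin c ⊕ Fin c) → ℕ) (hs : ∀ j, s j ≤ R) :
    (fun i => eval (fun j => (s j : ℚ)) (full n q c i)) ∈ hittingSet n q c R := by
  classical
  unfold hittingSet
  refine Finset.mem_image.2 ⟨((s (Sum.inl 0), s (Sum.inl 1)),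
    (fun l => s (Sum.inr (Sum.inl l)), fun l => s (Sum.inr (Sum.inr l)))), ?_, ?_⟩
  · simp only [Finset.mem_product, Finset.mem_range, Fintype.mem_piFinset, Nat.lt_succ_iff]
    exact ⟨⟨hs _, hs _⟩, fun _ => hs _, fun _ => hs _⟩
  · funext i
    exact (eval_full n q c s i).symm

/-- a nonzero polynomial of degree at most `N` is nonzero at a point with coordinates `≤ N` -/
lemma exists_small {τ : Type*} [Fintype τ] (P : MvPolynomial τ ℚ) (hP : P ≠ 0) {N : ℕ}
    (hN : P.totalDegree ≤ N) : ∃ s : τ → ℕ, (∀ j, s j ≤ N) ∧ eval (fun j => (s j : ℚ)) P ≠ 0 := by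
  classical
  by_contra hcon
  push Not at hcon
  apply hP
  refine eq_zero_of_eval_zero_at_prod_finset P
    (fun _ => (Finset.range (N + 1)).map Nat.castEmbedding) ?_ ?_
  · intro i
    rw [Finset.card_map, Finset.card_range, Nat.lt_succ_iff]
    exact (degreeOf_le_totalDegree _ _).trans hN
  · intro x hx
    have h1 : ∀ i, ∃ k ≤ N, (k : ℚ) = x i := by
      intro i
      obtain ⟨k, hk, hk'⟩ := Finset.mem_map.1 (hx i)
      exact ⟨k, Nat.lt_succ_iff.1 (Finset.mem_range.1 hk), hk'⟩
    choose k hk hk' using h1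
    have := hcon k hk
    rwa [funext hk'] at this

lemma card_hittingSet (n q c R : ℕ) : (hittingSet n q c R).card ≤ (R + 1) ^ (2 + 2 * c) := by
  classical
  unfold hittingSet
  refine Finset.card_image_le.trans ?_
  rw [Finset.card_product, Finset.card_product, Finset.card_product, Fintype.card_piFinset,
    Finset.card_range]
  simp only [Finset.card_range, Finset.prod_const, Finset.card_univ, Fintype.card_fin]
  rw [← pow_add, ← sq, ← pow_add]
  exact le_of_eq (by congr 1; ring)

lemma le_q {K a s P c κ d q : ℕ} (hq2 : (seeds K a P c κ).factorial * (s + κ * (d + 1) ^ c + 1) ^ seeds K a P c κ * n ≤ q) :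
    n ≤ q := by
  have h3 : 0 < (seeds K a P c κ).factorial * (s + κ * (d + 1) ^ c + 1) ^ seeds K a P c κ :=
    Nat.mul_pos (Nat.factorial_pos _) (pow_pos (Nat.succ_pos _) _)
  calc n = 1 * n := (one_mul n).symm
    _ ≤ _ := Nat.mul_le_mul_right _ h3
    _ ≤ q := hq2

/-- **Theorem** -/
theorem hit {K a s P c κ d q : ℕ} (hq : q.Prime) (hq1 : seeds K a P c κ * d < q)
    (hq2 : (seeds K a P c κ).factorial * (s + κ * (d + 1) ^ c + 1) ^ seeds K a P c κ * n ≤ q)
    {N m R : ℕ} (lam : Fin N → ℚ) (g : Fin N → Fin m → MvPolynomial (Fin n) ℚ)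
    (e : Fin N → Fin m → ℕ) (hg : ∀ i j, Factor n K a s P c κ d (g i j))
    (htr : ∀ b : Finset (Fin N),
      AlgebraicIndepOn ℚ (fun i => ∏ j, g i j ^ e i j) (b : Set (Fin N)) → b.card ≤ K)
    (h0 : ∑ i, C (lam i) * ∏ j, g i j ^ e i j ≠ 0) (f : MvPolynomial (Fin n) ℚ)
    (hf : f ∣ ∑ i, C (lam i) * ∏ j, g i j ^ e i j)
    (hR : 2 * q * f.totalDegree ≤ R ∨
      2 ^ (N + 1) * (2 * q * ∑ i, ∑ j, (g i j).totalDegree) + N ≤ R) :
    ∃ x ∈ hittingSet n q (seeds K a P c κ + K) R, eval x f ≠ 0 := by
  classical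
  have h1 : aeval (full n q (seeds K a P c κ + K)) (∑ i, C (lam i) * ∏ j, g i j ^ e i j) ≠ 0 := by
    refine phi_ne_zero (a := a) (s := s) (P := P) (c := c) (κ := κ) (d := d) hq hq1 hq2
      (fun i => ∏ j, g i j ^ e i j) ?_ htr _ ?_ h0
    · intro i
      exact Submonoid.prod_mem _ fun j _ => Submonoid.pow_mem _
        (Submonoid.subset_closure (show g i j ∈ {g | Factor n K a s P c κ d g} from hg i j)) _
    · refine Subalgebra.sum_mem _ fun i _ => ?_
      rw [← algebraMap_eq, ← Algebra.smul_def]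
      exact Subalgebra.smul_mem _ (Algebra.subset_adjoin (Set.mem_range_self i)) _
  have hn := le_q hq2
  obtain ⟨f', hf'⟩ := hf
  rcases hR with hR | hR
  · have h2 : aeval (full n q (seeds K a P c κ + K)) f ≠ 0 := by
      rw [hf', map_mul] at h1
      exact left_ne_zero_of_mul h1
    have h3 : (aeval (full n q (seeds K a P c κ + K)) f).totalDegree ≤ R :=
      (Helper6.totalDegree_aeval_le _ _ (fun i => totalDegree_full hn i) f).trans
        (by rw [mul_comm]; exact hR)
    obtain ⟨s', hs', h4⟩ := exists_small _ h2 h3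
    refine ⟨_, mem_hittingSet s' hs', ?_⟩
    rw [T3.eval_aeval'] at h4
    exact h4
  · obtain ⟨s', hs', h3⟩ := Helper6.exists_nat_seed (full n q (seeds K a P c κ + K))
      (fun i => totalDegree_full hn i) lam g e le_rfl h1
    refine ⟨_, mem_hittingSet (R := R) s' (fun j => (hs' j).trans ?_), ?_⟩
    · rw [mul_comm _ (2 * q)]
      exact hR
    · rw [hf', map_mul] at h3
      exact left_ne_zero_of_mul h3

/-! ### examples of factors -/

/-- sparse polynomials of bounded individual degree -/
theorem base_sparse {K s δ : ℕ} {g : MvPolynomial (Fin n) ℚ} (hs : g.support.card ≤ s)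
    (hd : ∀ i, g.degreeOf i ≤ δ) : Base n K s ((δ + 1) ^ K) 0 0 δ g := by
  classical
  refine ⟨g, 0, Fin.elim0, hs, fun J => ?_, fun b => b.elim0, fun i => by simp,
    fun i => ⟨hd i, fun b => b.elim0⟩, by simp⟩
  have h1 : (g.support.image fun (m : Fin n →₀ ℕ) (j : Fin K) => m (J j)) ⊆
      Fintype.piFinset fun _ => Finset.range (δ + 1) := by
    intro β hβ
    obtain ⟨m, hm, rfl⟩ := Finset.mem_image.1 hβ
    rw [Fintype.mem_piFinset]
    intro j
    rw [Finset.mem_range, Nat.lt_succ_iff]
    exact (monomial_le_degreeOf _ hm).trans (hd _)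
  refine (Finset.card_le_card h1).trans ?_
  rw [Fintype.card_piFinset]
  simp

/-- the exponents of total degree at most `δ` -/
noncomputable def expo (n : ℕ) : ℕ → Finset (Fin n →₀ ℕ)
  | 0 => {0}
  | δ + 1 => (Finset.univ ×ˢ expo n δ).image fun om : Option (Fin n) × (Fin n →₀ ℕ) =>
      om.2 + om.1.elim 0 (fun i => Finsupp.single i 1)

lemma card_expo (n δ : ℕ) : (expo n δ).card ≤ (n + 1) ^ δ := by
  induction δ with
  | zero => simp [expo]
  | succ δ ih =>
    unfold expo
    refine Finset.card_image_le.trans ?_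
    rw [Finset.card_product, Finset.card_univ, Fintype.card_option, Fintype.card_fin, pow_succ,
      mul_comm]
    exact Nat.mul_le_mul_right _ ih

lemma zero_mem_expo (n δ : ℕ) : 0 ∈ expo n δ := by
  induction δ with
  | zero => simp [expo]
  | succ δ ih =>
    unfold expo
    exact Finset.mem_image.2 ⟨(none, 0), Finset.mem_product.2 ⟨Finset.mem_univ _, ih⟩, by simp⟩

lemma mem_expo {δ : ℕ} : ∀ m : Fin n →₀ ℕ, ∑ i, m i ≤ δ → m ∈ expo n δ := by
  classical
  induction δ with
  | zero =>
    intro m hm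
    have : m = 0 := by
      ext i
      have := Finset.single_le_sum (f := fun i => m i) (fun _ _ => Nat.zero_le _)
        (Finset.mem_univ i)
      simp only [Finsupp.coe_zero, Pi.zero_apply]
      omega
    rw [this]
    exact zero_mem_expo n 0
  | succ δ ih =>
    intro m hm
    by_cases h0 : m = 0
    · rw [h0]; exact zero_mem_expo n _
    · obtain ⟨i, hi⟩ : ∃ i, m i ≠ 0 := by
        by_contra hcon
        push Not at hcon
        exact h0 (Finsupp.ext hcon)
      have h1 : (m - Finsupp.single i 1) + Finsupp.single i 1 = m := by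
        ext j
        rw [Finsupp.add_apply, Finsupp.tsub_apply, Finsupp.single_apply]
        split_ifs with h
        · subst h; omega
        · omega
      have h2 : ∑ j, (m - Finsupp.single i 1 : Fin n →₀ ℕ) j ≤ δ := by
        have h3 : ∑ j, m j = ∑ j, (m - Finsupp.single i 1 : Fin n →₀ ℕ) j + 1 := by
          conv_lhs => rw [← h1]
          simp only [Finsupp.add_apply, Finset.sum_add_distrib]
          congr 1
          rw [Finset.sum_eq_single i]
          · simp
          · intro j _ hj
            rw [Finsupp.single_apply, if_neg (Ne.symm hj)]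
          · simp
        omega
      unfold expo
      exact Finset.mem_image.2 ⟨(some i, m - Finsupp.single i 1),
        Finset.mem_product.2 ⟨Finset.mem_univ _, ih _ h2⟩, h1⟩

/-- polynomials of bounded degree -/
theorem base_degree {K δ : ℕ} {g : MvPolynomial (Fin n) ℚ} (hg : g.totalDegree ≤ δ) :
    Base n K ((n + 1) ^ δ) ((δ + 1) ^ K) 0 0 δ g := by
  refine base_sparse ?_ fun i => (degreeOf_le_totalDegree _ _).trans hg
  refine (Finset.card_le_card fun m hm => mem_expo m ?_).trans (card_expo n δ)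
  have := le_totalDegree hm
  rw [Finsupp.sum_fintype _ _ (by simp)] at this
  exact this.trans hg

end Pool.Agent.Helper7.T1
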