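import Pool.Agent.Helper7.KS2
import Pool.Agent.Helper7.T3.Local

/-!
(H2) for sparse polynomials with few exponents in every variable.
-/

set_option linter.unusedSectionVars false
set_option linter.unusedSimpArgs false

open MvPolynomial

namespace Pool.Agent.Helper7.T1

open KS

variable {n r : ℕ}

/-- at most `P` distinct exponent patterns on any `K` variables -/
def FewPat (K P : ℕ) (g : MvPolynomial (Fin n) ℚ) : Prop :=
  ∀ J : Fin K → Fin n, (g.support.image fun m j => m (J j)).card ≤ P

/-- all patterns -/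
def Pat (J : Fin r → Fin n) (g : MvPolynomial (Fin n) ℚ) : Finset (Fin r → ℕ) :=
  insert (fun _ => 0) (g.support.image fun m j => m (J j))

open Classical in
/-- the part of an exponent outside the range of `J` -/
noncomputable def offJ (J : Fin r → Fin n) (m : Fin n →₀ ℕ) : Fin n →₀ ℕ :=
  m.filter fun i => ∀ j, J j ≠ i

open Classical in
/-- the exponent on the range of `J` with the given values -/
noncomputable def onJ (J : Fin r → Fin n) (β : Fin r → ℕ) : Fin n →₀ ℕ :=
  Finsupp.equivFunOnFinite.symm fun i => if h : ∃ j, J j = i then β h.choose else 0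

lemma onJ_add_offJ (J : Fin r → Fin n) (m : Fin n →₀ ℕ) :
    onJ J (fun j => m (J j)) + offJ J m = m := by
  classical
  ext i
  rw [Finsupp.add_apply, onJ, offJ, Finsupp.equivFunOnFinite_symm_apply_apply,
    Finsupp.filter_apply]
  by_cases h : ∃ j, J j = i
  · rw [dif_pos h, if_neg (by push Not; exact h), h.choose_spec, add_zero]
  · rw [dif_neg h, if_pos (by push Not at h; exact h), zero_add]

open Classical in
/-- the coefficient polynomial of the pattern `β` -/
noncomputable def ext (J : Fin r → Fin n) (β : Fin r → ℕ) :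
    MvPolynomial (Fin n) ℚ →ₗ[ℚ] MvPolynomial (Fin n) ℚ :=
  (basisMonomials (Fin n) ℚ).constr ℚ
    (fun m => monomial (offJ J m) (if (fun j => m (J j)) = β then 1 else 0))

lemma ext_monomial (J : Fin r → Fin n) (β : Fin r → ℕ) (m : Fin n →₀ ℕ) (a : ℚ) [Decidable ((fun j => m (J j)) = β)] :
    ext J β (monomial m a) = monomial (offJ J m) (if (fun j => m (J j)) = β then a else 0) := by
  classical
  have h1 : (monomial m a : MvPolynomial (Fin n) ℚ) = a • basisMonomials (Fin n) ℚ m := by
    rw [coe_basisMonomials, smul_monomial, smul_eq_mul, mul_one]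
  rw [h1, map_smul, ext, Module.Basis.constr_basis, smul_monomial, smul_eq_mul]
  congr 1
  split_ifs <;> simp

lemma sp_ext {s d : ℕ} {g : MvPolynomial (Fin n) ℚ} (hg : Sp s d g) (J : Fin r → Fin n)
    (β : Fin r → ℕ) : Sp s d (ext J β g) := by
  classical
  refine hg.map_terms (ext J β).toAddMonoidHom
    (fun m a => if (fun j => m (J j)) = β then a else 0)
    (offJ J) (fun m i => ?_) (fun m a => ext_monomial _ _ _ _)
  rw [offJ, Finsupp.filter_apply]
  split_ifs
  · exact le_rfl
  · exact Nat.zero_le _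

lemma vars_ext (J : Fin r → Fin n) (β : Fin r → ℕ) (g : MvPolynomial (Fin n) ℚ) (j : Fin r) :
    J j ∉ (ext J β g).vars := by
  classical
  have h : ext J β g ∈ supported ℚ {i : Fin n | ∀ j, J j ≠ i} := by
    have h0 : ext J β g = ∑ m ∈ g.support, ext J β (monomial m (coeff m g)) := by
      conv_lhs => rw [g.as_sum, map_sum]
    rw [h0]
    refine (supported ℚ _).sum_mem fun m _ => ?_
    rw [ext_monomial, mem_supported]
    generalize (if (fun j => m (J j)) = β then coeff m g else 0) = c
    by_cases hc : c = 0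
    · rw [hc, monomial_zero, vars_0, Finset.coe_empty]
      exact Set.empty_subset _
    · rw [vars_monomial hc]
      intro i hi
      rw [Finset.mem_coe, Finsupp.mem_support_iff, offJ, Finsupp.filter_apply] at hi
      by_contra hcon
      exact hi (if_neg hcon)
  rw [mem_supported] at h
  intro hj
  exact h hj j rfl

lemma mem_Pat (J : Fin r → Fin n) {g : MvPolynomial (Fin n) ℚ} {m : Fin n →₀ ℕ}
    (hm : m ∈ g.support) : (fun j => m (J j)) ∈ Pat J g :=
  Finset.mem_insert_of_mem (Finset.mem_image_of_mem _ hm)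

lemma zero_mem_Pat (J : Fin r → Fin n) (g : MvPolynomial (Fin n) ℚ) :
    (fun _ => 0) ∈ Pat J g := Finset.mem_insert_self _ _

lemma card_Pat {K P : ℕ} {g : MvPolynomial (Fin n) ℚ} (hg : FewPat K P g) (hr : r ≤ K)
    (J : Fin r → Fin n) : (Pat J g).card ≤ P + 1 := by
  classical
  unfold Pat
  rcases Nat.eq_zero_or_pos r with h0 | h0
  · subst h0
    refine (Finset.card_le_one.2 fun a _ b _ => Subsingleton.elim a b).trans ?_
    omega
  refine (Finset.card_insert_le _ _).trans (Nat.add_le_add_right ?_ 1)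
  let φ : Fin K → Fin r := fun j => if h : (j : ℕ) < r then ⟨j, h⟩ else ⟨0, h0⟩
  have h1 : (g.support.image fun m j => m (J j)) ⊆
      (g.support.image fun (m : Fin n →₀ ℕ) (j : Fin K) => m (J (φ j))).image
        (fun β j => β (Fin.castLE hr j)) := by
    intro β hβ
    obtain ⟨m, hm, rfl⟩ := Finset.mem_image.1 hβ
    refine Finset.mem_image.2 ⟨_, Finset.mem_image_of_mem _ hm, ?_⟩
    funext j
    have : φ (Fin.castLE hr j) = j := by
      simp only [φ, Fin.val_castLE, j.2, dif_pos]
    simp only [this]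
  exact (Finset.card_le_card h1).trans (Finset.card_image_le.trans (hg _))

lemma decompose (J : Fin r → Fin n) (g : MvPolynomial (Fin n) ℚ) :
    g = ∑ β ∈ Pat J g, monomial (onJ J β) 1 * ext J β g := by
  classical
  have key : ∀ m ∈ g.support, monomial m (coeff m g) =
      ∑ β ∈ Pat J g, monomial (onJ J β) 1 * ext J β (monomial m (coeff m g)) := by
    intro m hm
    rw [Finset.sum_eq_single (fun j => m (J j))]
    · rw [ext_monomial, if_pos rfl, monomial_mul, one_mul, onJ_add_offJ]
    · intro β _ hβ
      rw [ext_monomial, if_neg (fun h => hβ h.symm), monomial_zero, mul_zero]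
    · intro h
      exact absurd (mem_Pat J hm) h
  conv_lhs => rw [g.as_sum, Finset.sum_congr rfl key, Finset.sum_comm]
  refine Finset.sum_congr rfl fun β _ => ?_
  rw [← Finset.mul_sum, ← map_sum, ← g.as_sum]

lemma onJ_zero (J : Fin r → Fin n) : onJ J (fun _ => 0) = 0 := by
  classical
  ext i
  rw [onJ, Finsupp.equivFunOnFinite_symm_apply_apply]
  split_ifs <;> rfl

lemma vars_onJ (J : Fin r → Fin n) (β : Fin r → ℕ) :
    (monomial (onJ J β) (1 : ℚ)).vars ⊆ Finset.univ.image J := by
  classical
  rw [vars_monomial one_ne_zero]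
  intro i hi
  rw [Finsupp.mem_support_iff, onJ, Finsupp.equivFunOnFinite_symm_apply_apply] at hi
  have h : ∃ j, J j = i := by
    by_contra hcon
    rw [dif_neg hcon] at hi
    exact hi rfl
  obtain ⟨j, rfl⟩ := h
  exact Finset.mem_image_of_mem _ (Finset.mem_univ j)

/-! ### terms in few variables -/

lemma card_support_le {d : ℕ} (f : MvPolynomial (Fin n) ℚ) (hd : ∀ i, degreeOf i f ≤ d) :
    f.support.card ≤ (d + 1) ^ f.vars.card := by
  classical
  have h1 : f.support.card ≤
      (Fintype.piFinset fun _ : f.vars => Finset.range (d + 1)).card := by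
    refine Finset.card_le_card_of_injOn (fun m (i : f.vars) => m i) ?_ ?_
    · intro m hm
      rw [Finset.mem_coe, Fintype.mem_piFinset]
      intro i
      rw [Finset.mem_range, Nat.lt_succ_iff]
      exact (monomial_le_degreeOf _ hm).trans (hd _)
    · intro m hm m' hm' heq
      ext i
      by_cases hi : i ∈ f.vars
      · exact congrFun heq ⟨i, hi⟩
      · have h : ∀ m ∈ f.support, m i = 0 := by
          intro m hm
          by_contra h0
          exact hi ((mem_vars_iff_mem_support _).2 ⟨m, hm, Finsupp.mem_support_iff.2 h0⟩)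
        rw [h m hm, h m' hm']
  refine h1.trans ?_
  rw [Fintype.card_piFinset]
  simp

variable {N : ℕ}

open Classical in
/-- the sum of the terms not involving the range of `J` -/
noncomputable def offSum (J : Fin r → Fin n) (p : Fin N → MvPolynomial (Fin n) ℚ) :
    MvPolynomial (Fin n) ℚ :=
  ∑ b ∈ Finset.univ.filter (fun b => ∀ j, J j ∉ (p b).vars), p b

lemma vars_offSum (J : Fin r → Fin n) (p : Fin N → MvPolynomial (Fin n) ℚ) (j : Fin r) :
    J j ∉ (offSum J p).vars := by
  classical
  intro h
  have h1 := vars_sum_subset _ _ h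
  obtain ⟨v, hv, hj⟩ := Finset.mem_biUnion.1 h1
  exact (Finset.mem_filter.1 hv).2 j hj

lemma sp_pderiv_offSum {c κ d : ℕ} (J : Fin r → Fin n) (p : Fin N → MvPolynomial (Fin n) ℚ)
    (hp : ∀ b, (p b).vars.card ≤ c ∧ ∀ i, (p b).degreeOf i ≤ d)
    (hκ : ∀ i, (Finset.univ.filter fun b => i ∈ (p b).vars).card ≤ κ) (j : Fin n) :
    Sp (κ * (d + 1) ^ c) d (pderiv j (offSum J p)) := by
  classical
  have h1 : pderiv j (offSum J p) = ∑ b ∈ (Finset.univ.filter fun b => ∀ j, J j ∉ (p b).vars).filter
      fun b => j ∈ (p b).vars, pderiv j (p b) := by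
    unfold offSum
    rw [map_sum, Finset.sum_filter (fun b => j ∈ (p b).vars)]
    refine Finset.sum_congr rfl fun b _ => ?_
    split_ifs with h
    · rfl
    · exact pderiv_eq_zero_of_notMem_vars h
  rw [h1]
  have h2 : ∀ b ∈ (Finset.univ.filter fun b => ∀ j, J j ∉ (p b).vars).filter
      fun b => j ∈ (p b).vars, Sp ((d + 1) ^ c) d (pderiv j (p b)) := by
    intro b _
    refine Sp.pderiv ⟨(card_support_le _ (hp b).2).trans
      (Nat.pow_le_pow_right (Nat.succ_pos d) (hp b).1), (hp b).2⟩ j
  refine (Sp.sum _ _ h2).mono (Nat.mul_le_mul_right _ ?_) le_rfl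
  refine (Finset.card_le_card ?_).trans (hκ j)
  intro b hb
  rw [Finset.mem_filter] at hb
  exact Finset.mem_filter.2 ⟨Finset.mem_univ b, hb.2⟩

open Classical in
/-- the parameters -/
noncomputable def param (J : Fin r → Fin n) (h : MvPolynomial (Fin n) ℚ)
    (p : Fin N → MvPolynomial (Fin n) ℚ) (β : Fin r → ℕ) : MvPolynomial (Fin n) ℚ :=
  ext J β h + if β = (fun _ => 0) then offSum J p else 0

lemma vars_param (J : Fin r → Fin n) (h : MvPolynomial (Fin n) ℚ)
    (p : Fin N → MvPolynomial (Fin n) ℚ) (β : Fin r → ℕ) (j : Fin r) :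
    J j ∉ (param J h p β).vars := by
  classical
  intro hj
  unfold param at hj
  rcases Finset.mem_union.1 (vars_add_subset _ _ hj) with hj | hj
  · exact vars_ext J β h j hj
  · split_ifs at hj
    · exact vars_offSum J p j hj
    · simp at hj

lemma sp_pderiv_param {s c κ d : ℕ} (J : Fin r → Fin n) {h : MvPolynomial (Fin n) ℚ}
    (hh : Sp s d h) {p : Fin N → MvPolynomial (Fin n) ℚ}
    (hp : ∀ b, (p b).vars.card ≤ c ∧ ∀ i, (p b).degreeOf i ≤ d)
    (hκ : ∀ i, (Finset.univ.filter fun b => i ∈ (p b).vars).card ≤ κ)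
    (β : Fin r → ℕ) (j : Fin n) : Sp (s + κ * (d + 1) ^ c) d (pderiv j (param J h p β)) := by
  classical
  unfold param
  rw [map_add]
  refine ((sp_ext hh J β).pderiv j).add ?_
  split_ifs
  · exact sp_pderiv_offSum J p hp hκ j
  · rw [map_zero]
    exact Sp.zero _ _

open Classical in
/-- the terms involving the range of `J` -/
noncomputable def onSet (J : Fin r → Fin n) (p : Fin N → MvPolynomial (Fin n) ℚ) : Finset (Fin N) :=
  Finset.univ.filter (fun b => ¬ ∀ j, J j ∉ (p b).vars)

lemma decompose' (J : Fin r → Fin n) (h : MvPolynomial (Fin n) ℚ)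
    (p : Fin N → MvPolynomial (Fin n) ℚ) :
    h + ∑ b, p b = ∑ β ∈ Pat J h, monomial (onJ J β) 1 * param J h p β +
      ∑ b ∈ onSet J p, p b := by
  classical
  have h1 : ∑ β ∈ Pat J h, monomial (onJ J β) 1 * param J h p β = h + offSum J p := by
    unfold param
    simp only [mul_add, Finset.sum_add_distrib]
    rw [← decompose J h]
    congr 1
    rw [Finset.sum_eq_single (fun _ => 0)]
    · rw [if_pos rfl, onJ_zero, monomial_zero', C_1, one_mul]
    · intro β _ hβ
      rw [if_neg hβ, mul_zero]
    · intro h0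
      exact absurd (zero_mem_Pat J h) h0
  rw [h1, add_assoc]
  congr 1
  unfold offSum onSet
  exact (Finset.sum_filter_add_sum_filter_not _ _ _).symm

open Classical in
/-- the variables of the terms involving the range of `J`, other than those in the range -/
noncomputable def extra (J : Fin r → Fin n) (p : Fin N → MvPolynomial (Fin n) ℚ) :
    Finset (Fin n) :=
  (onSet J p).biUnion fun b => (p b).vars \ Finset.univ.image J

lemma card_extra {c κ : ℕ} (J : Fin r → Fin n) (p : Fin N → MvPolynomial (Fin n) ℚ)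
    (hp : ∀ b, (p b).vars.card ≤ c)
    (hκ : ∀ i, (Finset.univ.filter fun b => i ∈ (p b).vars).card ≤ κ) :
    (extra J p).card ≤ r * κ * (c - 1) := by
  classical
  unfold extra
  refine Finset.card_biUnion_le.trans ?_
  have h1 : ∀ b ∈ onSet J p, ((p b).vars \ Finset.univ.image J).card ≤ c - 1 := by
    intro b hb
    obtain ⟨j, hj⟩ : ∃ j, J j ∈ (p b).vars := by
      have := (Finset.mem_filter.1 hb).2
      push Not at this
      exact this
    have h2 : (p b).vars \ Finset.univ.image J ⊆ (p b).vars.erase (J j) := by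
      intro i hi
      rw [Finset.mem_sdiff] at hi
      refine Finset.mem_erase.2 ⟨?_, hi.1⟩
      rintro rfl
      exact hi.2 (Finset.mem_image_of_mem _ (Finset.mem_univ j))
    refine (Finset.card_le_card h2).trans ?_
    rw [Finset.card_erase_of_mem hj]
    have := hp b
    omega
  refine (Finset.sum_le_sum h1).trans ?_
  rw [Finset.sum_const, smul_eq_mul]
  refine Nat.mul_le_mul_right _ ?_
  have h3 : onSet J p ⊆ Finset.univ.biUnion fun j : Fin r =>
      Finset.univ.filter fun b => J j ∈ (p b).vars := by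
    intro b hb
    have := (Finset.mem_filter.1 hb).2
    push Not at this
    obtain ⟨j, hj⟩ := this
    exact Finset.mem_biUnion.2 ⟨j, Finset.mem_univ j, Finset.mem_filter.2 ⟨Finset.mem_univ b, hj⟩⟩
  refine (Finset.card_le_card h3).trans (Finset.card_biUnion_le.trans ?_)
  refine (Finset.sum_le_sum fun j _ => hκ (J j)).trans ?_
  simp

/-- the class of parameters -/
def Par (s d : ℕ) (a : MvPolynomial (Fin n) ℚ) : Prop := ∀ j, Sp s d (pderiv j a)

lemma par_X (s d : ℕ) (i : Fin n) : Par (s + 1) d (X i : MvPolynomial (Fin n) ℚ) := by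
  classical
  intro j
  rw [pderiv_X]
  by_cases h : i = j
  · subst h
    rw [Pi.single_eq_same]
    exact Sp.one.mono (by omega) (Nat.zero_le _)
  · rw [Pi.single_eq_of_ne h]
    exact Sp.zero _ _

/-- **(H2)** for sparse polynomials plus sums of polynomials in few variables -/
theorem h2_sparse {ι : Type} [Fintype ι] {s d P c κ K : ℕ} (h : ι → MvPolynomial (Fin n) ℚ)
    (N : ι → ℕ) (p : ∀ l, Fin (N l) → MvPolynomial (Fin n) ℚ)
    (hg : ∀ l, Sp s d (h l)) (hδ : ∀ l, FewPat K P (h l))
    (hp : ∀ l b, (p l b).vars.card ≤ c ∧ ∀ i, (p l b).degreeOf i ≤ d)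
    (hκ : ∀ l i, (Finset.univ.filter fun b => i ∈ (p l b).vars).card ≤ κ)
    (hr : r ≤ K) (J : Fin r → Fin n) :
    ∃ a : Fin (K + Fintype.card ι * (P + 1 + K * κ * (c - 1))) → MvPolynomial (Fin n) ℚ,
      (∀ i, Par (s + κ * (d + 1) ^ c + 1) d (a i)) ∧
      ∀ l m, coeff m (shf J (h l + ∑ b, p l b)) ∈ Algebra.adjoin ℚ (Set.range a) := by
  classical
  set A : Finset (MvPolynomial (Fin n) ℚ) := (Finset.univ.image fun j => X (J j)) ∪
    Finset.univ.biUnion fun l => ((Pat J (h l)).image (fun β => param J (h l) (p l) β) ∪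
      (extra J (p l)).image X) with hA
  have hcard : A.card ≤ K + Fintype.card ι * (P + 1 + K * κ * (c - 1)) := by
    refine (Finset.card_union_le _ _).trans (Nat.add_le_add ?_ ?_)
    · refine Finset.card_image_le.trans ?_
      rwa [Finset.card_univ, Fintype.card_fin]
    · refine Finset.card_biUnion_le.trans ?_
      calc ∑ l, ((Pat J (h l)).image (fun β => param J (h l) (p l) β) ∪
            (extra J (p l)).image X).card
          ≤ ∑ _l : ι, (P + 1 + K * κ * (c - 1)) := Finset.sum_le_sum fun l _ => by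
            refine (Finset.card_union_le _ _).trans (Nat.add_le_add ?_ ?_)
            · exact Finset.card_image_le.trans (card_Pat (hδ l) hr J)
            · refine Finset.card_image_le.trans
                ((card_extra J (p l) (fun b => (hp l b).1) (hκ l)).trans ?_)
              exact Nat.mul_le_mul_right _ (Nat.mul_le_mul_right _ hr)
        _ = _ := by simp
  have hP : ∀ a ∈ A, Par (s + κ * (d + 1) ^ c + 1) d a := by
    intro a ha
    rcases Finset.mem_union.1 ha with ha | ha
    · obtain ⟨j, -, rfl⟩ := Finset.mem_image.1 ha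
      exact par_X _ _ _
    · obtain ⟨l, -, ha⟩ := Finset.mem_biUnion.1 ha
      rcases Finset.mem_union.1 ha with ha | ha
      · obtain ⟨β, -, rfl⟩ := Finset.mem_image.1 ha
        exact fun j => (sp_pderiv_param J (hg l) (hp l) (hκ l) β j).mono (Nat.le_succ _) le_rfl
      · obtain ⟨i, -, rfl⟩ := Finset.mem_image.1 ha
        exact par_X _ _ _
  obtain ⟨a, ha1, ha2⟩ := T3.exists_family (fun a => Par (s + κ * (d + 1) ^ c + 1) d a)
    (fun j => by rw [map_zero]; exact Sp.zero _ _) A hcard hP
  refine ⟨a, ha1, fun l => ?_⟩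
  have hX : ∀ i ∈ Finset.univ.image J, (X i : MvPolynomial (Fin n) ℚ) ∈
      Algebra.adjoin ℚ (A : Set (MvPolynomial (Fin n) ℚ)) := by
    intro i hi
    obtain ⟨j, -, rfl⟩ := Finset.mem_image.1 hi
    apply Algebra.subset_adjoin
    rw [Finset.mem_coe]
    exact Finset.mem_union_left _ (Finset.mem_image_of_mem (fun j => X (J j)) (Finset.mem_univ j))
  have hfin : shf J (h l + ∑ b, p l b) ∈ coefSub (Algebra.adjoin ℚ (A : Set _)) r := by
    rw [decompose' J (h l) (p l), map_add, map_sum, map_sum]
    refine (coefSub _ r).add_mem ((coefSub _ r).sum_mem fun β hβ => ?_)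
      ((coefSub _ r).sum_mem fun b hb => ?_)
    · rw [map_mul]
      refine (coefSub _ r).mul_mem (shf_mem_of_vars J (vars_onJ J β) hX) ?_
      rw [shf_eq_C J (vars_param J (h l) (p l) β)]
      apply C_mem_coefSub
      apply Algebra.subset_adjoin
      rw [Finset.mem_coe]
      exact Finset.mem_union_right _ (Finset.mem_biUnion.2 ⟨l, Finset.mem_univ l,
        Finset.mem_union_left _ (Finset.mem_image_of_mem (fun β => param J (h l) (p l) β) hβ)⟩)
    · refine shf_mem_of_vars J (B := (p l b).vars) subset_rfl fun i hi => ?_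
      by_cases hiJ : i ∈ Finset.univ.image J
      · exact hX i hiJ
      · apply Algebra.subset_adjoin
        rw [Finset.mem_coe]
        refine Finset.mem_union_right _ (Finset.mem_biUnion.2 ⟨l, Finset.mem_univ l,
          Finset.mem_union_right _ (Finset.mem_image_of_mem _ ?_)⟩)
        exact Finset.mem_biUnion.2 ⟨b, hb, Finset.mem_sdiff.2 ⟨hi, hiJ⟩⟩
  intro m
  exact Algebra.adjoin_mono ha2 (hfin m)

end Pool.Agent.Helper7.T1
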